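import Pool.Agent.H354.BG.Main

set_option autoImplicit false

/-! # The word problem for Artin groups over an arbitrary graph of blocks

Let the generators of an Artin group `A_M` be divided into blocks such that any two different
blocks either commute (all labels between them are `2`) or have only even labels `≥ 4` or `∞`
between them; the labels inside the blocks are arbitrary, and there is no condition on the
pattern of the commuting pairs of blocks. Then `A_M` has solvable word problem if and only if
this holds for the parabolic subgroup of each block with at least three elements. In particular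
it has solvable word problem if every block has at most two elements.

Outline. Let `b` be a block, `W` the union of the other blocks, `Z` the union of those which
commute with `b`. The kernel `K` of the retraction `A_M → A_W` is the colimit of a system of groups
over the geometry with points `(g A_Z, v)`, `g ∈ A_W`, `v ∈ b`, and with the lines `g A_Z` (line
group `A_b`) and `(v, w, g ⟨w⟩ A_{Z ∩ w^⊥})` for `w` in a block not commuting with `b` and with
`m_vw = 2 k` finite (line group free of rank `k`). By induction on the number of blocks this
geometry has no triangles, since a triangle would give a relation with at most three syllables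
in the kernel of `A_{Z ∪ c} → A_Z` for some block `c` of `W`, and such relations are excluded by the
normal form theorem for the smaller system. So the normal form theorem of the library (`H482R3.EA`)
holds for `K`. The algorithm: the normal form of a nontrivial element is a certificate; validity
of certificates needs equality of points and lines of the geometry (membership in parabolic
subgroups, decided by retractions) and collinearity of points (membership in double cosets
`A_Z w^i A_Z`, decided by the shape of the normal forms of the smaller systems).

Project BG of helper354, formalised with helpers 23, 34, 36, 38, 47, 59, 105, 167, 187, 199, 229,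
230, 289, 297, 333, 337, 349, 379, 415, 618, 658, 662, 665, 671, 727, 746, 763, 800, 807, 881,
909 and 935; it uses the library project of helper482 (`H482R3`). -/

namespace Pool.Agent.Results.MP_a1ec0a_al.BlockGraph

/-- The Artin group on `Fin n` with labels `m` (`0` stands for infinity). -/
abbrev Artin {n : ℕ} (m : Fin n → Fin n → ℕ) : Type :=
  PresentedGroup
    {r : FreeGroup (Fin n) | ∃ i j : Fin n, m i j ≠ 0 ∧
      r = ((CoxeterSystem.alternatingWord i j (m i j)).map FreeGroup.of).prod *
        (((CoxeterSystem.alternatingWord j i (m i j)).map FreeGroup.of).prod)⁻¹}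

/-- The Artin group with labels `m` has solvable word problem: it is decidable whether a word in
the generators (`true`) and their inverses (`false`) represents the identity. -/
def Solvable {n : ℕ} (m : Fin n → Fin n → ℕ) : Prop :=
  ComputablePred (fun u : List (Fin n × Bool) =>
    (u.map (fun a => if a.2 then (PresentedGroup.of a.1 : Artin m)
      else (PresentedGroup.of a.1)⁻¹)).prod = 1)

open Pool.Agent.H482R3.EA (W inv ev)
open Pool.Agent.H482R3.EB (AR gR TR SolvWP)
open Pool.Agent.H354.BG

/-- the commuting relation of the blocks -/
def Com {n r : ℕ} (M : CoxeterMatrix (Fin n)) (β : Fin n → Fin r) (a b : Fin r) : Prop :=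
  ∀ i j, β i = a → β j = b → M i j = 2

theorem com_symm {n r : ℕ} (M : CoxeterMatrix (Fin n)) (β : Fin n → Fin r) (a b : Fin r)
    (h : Com M β a b) : Com M β b a := fun i j hi hj => by
  rw [M.symmetric i j]
  exact h j i hj hi

/-- a block is a retract: the easy direction -/
theorem easy (n r : ℕ) (M : CoxeterMatrix (Fin n)) (β : Fin n → Fin r)
    (R : Fin r → Fin r → Prop) (hRs : ∀ a b, R a b → R b a)
    (hcom : ∀ i j, β i ≠ β j → R (β i) (β j) → M i j = 2)
    (hcro : ∀ i j, β i ≠ β j → ¬ R (β i) (β j) → Even (M i j) ∧ M i j ≠ 2)
    (hM : SolvWP M) (b : Fin r) (k : ℕ) (e : Fin k ≃ {i : Fin n // β i = b}) :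
    SolvWP (fun x y : Fin k => M (e x) (e y)) := by
  classical
  let D : Dat :=
    { n := n
      m := fun i j => M i j
      r := r
      β := β
      R := fun a b => decide (R a b)
      symm := fun s t => M.symmetric s t
      ne1 := fun s t h => M.off_diagonal s t h
      Rsymm := fun a b => by
        by_cases h : R a b
        · have h' := hRs a b h
          simp [h, h']
        · have h' : ¬ R b a := fun h2 => h (hRs b a h2)
          simp [h, h']
      com := fun s t hst hR => hcom s t hst (by simpa using hR)
      cro := fun s t hst hR => hcro s t hst (by simpa using hR) }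
  have h1 : ComputablePred (fun u : W (Fin n) => TR (fun i j => M i j) u) :=
    ComputablePred.of_eq hM fun u => Pool.Agent.H482R3.EB.Asm.artr n (fun i j => M i j)
      (fun i => M.diagonal i) (fun i j => M.symmetric i j) u
  have h2 := Pool.Agent.H881.BG.BLK.comp_pred h1
    (Pool.Agent.H325R.EB.FINALB_map (fun x : Fin k => (e x : Fin n)))
  have h3 : ComputablePred (TR (Pool.Agent.H881.BG.BLK.mb D b e)) := by
    refine ComputablePred.of_eq h2 fun u => ?_
    have h4 := Pool.Agent.H881.BG.BLK.key D b e (u.map (fun x => ((e x.1 : Fin n), x.2)))
    have h5 : (u.map (fun x => ((e x.1 : Fin n), x.2))).filterMap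
        (Pool.Agent.H881.BG.BLK.gl D b e) = u := by
      rw [List.filterMap_map]
      conv_rhs => rw [← List.filterMap_some (l := u)]
      refine List.filterMap_congr fun x _ => ?_
      show Pool.Agent.H881.BG.BLK.gl D b e ((e x.1 : Fin n), x.2) = some x
      unfold Pool.Agent.H881.BG.BLK.gl
      have h6 : D.β (e x.1 : Fin n) = b := (e x.1).2
      rw [dif_pos h6]
      have h7 : e.symm ⟨(e x.1 : Fin n), h6⟩ = x.1 := e.symm_apply_apply x.1
      rw [h7]
    rw [h5] at h4
    have h8 : rho D {b} (gEl D (u.map (fun x => ((e x.1 : Fin n), x.2)))) =
        gEl D (u.map (fun x => ((e x.1 : Fin n), x.2))) := by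
      rw [rho_gEl]
      congr 1
      unfold flt
      rw [List.filter_eq_self]
      intro a ha
      obtain ⟨x, _, rfl⟩ := List.mem_map.1 ha
      have h6 : D.β (e x.1 : Fin n) = b := (e x.1).2
      simp [h6]
    rw [h8] at h4
    exact h4.symm
  exact ComputablePred.of_eq h3 fun u =>
    (Pool.Agent.H482R3.EB.Asm.artr k (fun x y : Fin k => M (e x) (e y)) (fun _ => M.diagonal _)
      (fun _ _ => M.symmetric _ _) u).symm

/-- Let the generators of the Artin group of the Coxeter matrix `M` (`0` stands for infinity) be
divided into blocks by `β`, such that for any two different blocks `a`, `b` either all labels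
between `a` and `b` are `2`, or all of them are even and at least `4`, or infinite. Then the Artin
group of `M` has solvable word problem if and only if the Artin groups of all blocks with at least
three elements have. -/
theorem result (n r : ℕ) (M : CoxeterMatrix (Fin n)) (β : Fin n → Fin r)
    (h : ∀ a b : Fin r, a ≠ b →
      (∀ i j, β i = a → β j = b → M i j = 2) ∨
      (∀ i j, β i = a → β j = b → Even (M i j) ∧ M i j ≠ 2)) :
    Solvable M ↔ ∀ (b : Fin r) (k : ℕ) (e : Fin k ≃ {i : Fin n // β i = b}), 3 ≤ k →
      Solvable (fun x y : Fin k => M (e x) (e y)) := by
  classical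
  have hcom : ∀ i j, β i ≠ β j → Com M β (β i) (β j) → M i j = 2 :=
    fun i j _ h1 => h1 i j rfl rfl
  have hcro : ∀ i j, β i ≠ β j → ¬ Com M β (β i) (β j) → Even (M i j) ∧ M i j ≠ 2 := by
    intro i j hij h1
    rcases h (β i) (β j) hij with h2 | h2
    · exact absurd h2 h1
    · exact h2 i j rfl rfl
  have hsmall : ∀ (b : Fin r) (k : ℕ) (e : Fin k ≃ {i : Fin n // β i = b}), k ≤ 2 →
      Solvable (fun x y : Fin k => M (e x) (e y)) := by
    intro b k e hk
    let M' : CoxeterMatrix (Fin k) :=
      { M := Matrix.of fun x y => M (e x) (e y)
        isSymm := by
          ext x y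
          simp [Matrix.transpose_apply, M.symmetric]
        diagonal := fun x => by simp
        off_diagonal := fun x y hxy => by
          have h2 := M.off_diagonal (e x) (e y)
            (fun h' => hxy (e.injective (Subtype.ext h')))
          simpa using h2 }
    exact Pool.Agent.H482R3.EB.Asm.dihb k M' hk
  refine ⟨fun hM b k e _ => ?_, fun hb => ?_⟩
  · exact easy n r M β (Com M β) (com_symm M β) hcom hcro hM b k e
  · refine Asm.fin n r M β (Com M β) (com_symm M β) hcom hcro fun b => ?_
    refine ⟨Fintype.card {i : Fin n // β i = b}, (Fintype.equivFin _).symm, ?_⟩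
    rcases Nat.lt_or_ge (Fintype.card {i : Fin n // β i = b}) 3 with h3 | h3
    · exact hsmall b _ _ (by omega)
    · exact hb b _ _ h3

end Pool.Agent.Results.MP_a1ec0a_al.BlockGraph
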